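import Mathlib
import Pool.Agent.E8helper52.OR.Contour

/-! Project KV: the Gaussian transform on vertical lines. -/

set_option autoImplicit false

open MeasureTheory Set Filter Topology Complex

namespace Pool.Agent.J6H39.KV

/-- the heat kernel -/
noncomputable def gk (δ x : ℝ) : ℝ := (Real.sqrt (4 * Real.pi * δ))⁻¹ * Real.exp (-(x ^ 2 / (4 * δ)))

theorem gk_nonneg (δ x : ℝ) : 0 ≤ gk δ x := by unfold gk; positivity

theorem gk_cont {δ : ℝ} : Continuous (gk δ) := by unfold gk; fun_prop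

theorem gk_neg (δ x : ℝ) : gk δ (-x) = gk δ x := by unfold gk; rw [neg_sq]

theorem gauss_line {δ : ℝ} (hδ : 0 < δ) (a w : ℝ) :
    ∫ t : ℝ, cexp (δ * (a + t * I) ^ 2 + w * (a + t * I)) = ((2 * Real.pi * gk δ w : ℝ) : ℂ) := by
  have h1 : ∀ t : ℝ, cexp (δ * (a + t * I) ^ 2 + w * (a + t * I)) =
      cexp ((-δ : ℂ) * t ^ 2 + ((2 * δ * a + w) * I) * t + (δ * a ^ 2 + w * a)) := by
    intro t
    congr 1
    have hI : I ^ 2 = -1 := I_sq
    linear_combination (δ * (t : ℂ) ^ 2) * hI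
  simp_rw [h1]
  rw [integral_cexp_quadratic (by simpa using hδ)]
  have hδ' : (δ : ℂ) ≠ 0 := by exact_mod_cast hδ.ne'
  have h2 : (δ * a ^ 2 + w * a : ℂ) - ((2 * δ * a + w) * I) ^ 2 / (4 * (-δ : ℂ)) =
      ((-(w ^ 2 / (4 * δ)) : ℝ) : ℂ) := by
    push_cast
    have hI : I ^ 2 = -1 := I_sq
    field_simp
    rw [hI]
    ring
  rw [h2]
  have h3 : ((Real.pi : ℂ) / -(-δ : ℂ)) ^ (1 / 2 : ℂ) = ((Real.sqrt (Real.pi / δ) : ℝ) : ℂ) := by
    rw [neg_neg, Real.sqrt_eq_rpow, Complex.ofReal_cpow (by positivity)]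
    push_cast
    rfl
  rw [h3, ← Complex.ofReal_exp, ← Complex.ofReal_mul]
  congr 1
  unfold gk
  rw [← mul_assoc]
  congr 1
  have h4 : 0 < Real.sqrt (4 * Real.pi * δ) := Real.sqrt_pos.2 (by positivity)
  rw [eq_mul_inv_iff_mul_eq₀ h4.ne', ← Real.sqrt_mul (by positivity)]
  have h5 : Real.pi / δ * (4 * Real.pi * δ) = (2 * Real.pi) ^ 2 := by
    field_simp
    ring
  rw [h5, Real.sqrt_sq (by positivity)]

theorem gauss_int {δ : ℝ} (hδ : 0 < δ) (a w : ℝ) :
    Integrable fun t : ℝ => cexp (δ * (a + t * I) ^ 2 + w * (a + t * I)) := by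
  have h1 : ∀ t : ℝ, cexp (δ * (a + t * I) ^ 2 + w * (a + t * I)) =
      cexp (-(δ : ℂ) * t ^ 2 + ((2 * δ * a + w) * I) * t + (δ * a ^ 2 + w * a)) := by
    intro t
    congr 1
    have hI : I ^ 2 = -1 := I_sq
    linear_combination (δ * (t : ℂ) ^ 2) * hI
  simp_rw [h1]
  exact integrable_cexp_quadratic (by simpa using hδ) _ _

theorem gk_integral {δ : ℝ} (hδ : 0 < δ) : ∫ x, gk δ x = 1 := by
  unfold gk
  rw [integral_const_mul]
  have h1 : ∀ x : ℝ, Real.exp (-(x ^ 2 / (4 * δ))) = Real.exp (-(1 / (4 * δ)) * x ^ 2) := by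
    intro x; congr 1; ring
  simp_rw [h1]
  rw [integral_gaussian]
  have h2 : Real.pi / (1 / (4 * δ)) = 4 * Real.pi * δ := by field_simp
  rw [h2, inv_mul_cancel₀ (Real.sqrt_pos.2 (by positivity)).ne']

theorem gk_integrable {δ : ℝ} (hδ : 0 < δ) : Integrable (gk δ) := by
  have := gk_integral hδ
  by_contra h
  rw [integral_undef h] at this
  exact zero_ne_one this

/-- **the Gaussian transform of a Laplace transform** -/
theorem gauss_laplace {h : ℝ → ℂ} {σ : ℝ} (hh : Integrable fun v => h v * cexp (-(σ * v)))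
    {δ : ℝ} (hδ : 0 < δ) (u : ℝ) :
    ∫ t : ℝ, (∫ v : ℝ, h v * cexp (-((σ + t * I) * v))) *
        cexp (δ * (σ + t * I - 1 / 2) ^ 2 + u * (σ + t * I)) =
      2 * Real.pi * ∫ v : ℝ, h v * ((Real.exp ((u - v) / 2) * gk δ (u - v) : ℝ) : ℂ) := by
  have hnorm : ∀ t : ℝ, ‖cexp (δ * (σ + t * I - 1 / 2) ^ 2 + u * (σ + t * I))‖ =
      ‖cexp (δ * (((σ - 1 / 2 : ℝ) : ℂ) + t * I) ^ 2 + ((0 : ℝ) : ℂ) * (((σ - 1 / 2 : ℝ) : ℂ) + t * I))‖ *
        Real.exp (u * σ) := by
    intro t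
    rw [Complex.norm_exp, Complex.norm_exp, ← Real.exp_add]
    congr 1
    have e : δ * (σ + t * I - 1 / 2) ^ 2 + u * (σ + t * I) =
        (δ * (((σ - 1 / 2 : ℝ) : ℂ) + t * I) ^ 2 + ((0 : ℝ) : ℂ) * (((σ - 1 / 2 : ℝ) : ℂ) + t * I)) +
          (u * σ : ℝ) + ((u * t : ℝ) : ℂ) * I := by
      push_cast
      ring
    rw [e]
    simp
  have hF : Integrable (fun p : ℝ × ℝ => (h p.2 * cexp (-((σ + p.1 * I) * p.2))) *
      cexp (δ * (σ + p.1 * I - 1 / 2) ^ 2 + u * (σ + p.1 * I))) (volume.prod volume) := by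
    have h1 := (gauss_int hδ (σ - 1 / 2) 0).norm.mul_const (Real.exp (u * σ))
    have h2 := h1.mul_prod hh.norm
    refine h2.mono' ?_ (Eventually.of_forall fun p => ?_)
    · have hm : AEStronglyMeasurable (fun v => h v) volume := by
        have : (fun v => h v) = fun v => (h v * cexp (-(σ * v))) * cexp (σ * v) := by
          funext v
          rw [mul_assoc, ← Complex.exp_add]
          simp
        rw [this]
        exact hh.1.mul (Continuous.aestronglyMeasurable (by fun_prop))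
      refine AEStronglyMeasurable.mul (AEStronglyMeasurable.mul ?_ ?_) ?_
      · exact hm.comp_snd
      · exact Continuous.aestronglyMeasurable (by fun_prop)
      · exact Continuous.aestronglyMeasurable (by fun_prop)
    · rw [norm_mul, hnorm]
      rw [mul_comm]
      apply le_of_eq
      congr 1
      rw [norm_mul, norm_mul]
      congr 1
      rw [Complex.norm_exp, Complex.norm_exp]
      simp
  simp_rw [← integral_mul_const]
  rw [integral_integral_swap hF, ← integral_const_mul]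
  congr 1
  funext v
  have h3 : ∀ t : ℝ, h v * cexp (-((σ + t * I) * v)) * cexp (δ * (σ + t * I - 1 / 2) ^ 2 + u * (σ + t * I)) =
      (h v * ((Real.exp ((u - v) / 2) : ℝ) : ℂ)) *
        cexp (δ * (((σ - 1 / 2 : ℝ) : ℂ) + t * I) ^ 2 +
          ((u - v : ℝ) : ℂ) * (((σ - 1 / 2 : ℝ) : ℂ) + t * I)) := by
    intro t
    rw [mul_assoc, mul_assoc, ← Complex.exp_add, Complex.ofReal_exp, ← Complex.exp_add]
    congr 2
    push_cast
    ring
  simp_rw [h3]
  rw [integral_const_mul, gauss_line hδ]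
  push_cast
  ring

end Pool.Agent.J6H39.KV
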