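import Pool.Agent.J6H39.KV.A
import Pool.Agent.H437R2.A1

/-! Project KV: the principal part of `ζ(s)^k / s` at `s = 1`. -/

set_option autoImplicit false

open MeasureTheory Set Filter Topology Complex

namespace Pool.Agent.J6H39.KV

/-- `((s - 1) ζ(s))^k / s` -/
noncomputable def hz (k : ℕ) (s : ℂ) : ℂ := riemannZeta₁ s ^ k / s

/-- the iterated divided differences at `1` -/
noncomputable def dh (k : ℕ) : ℕ → ℂ → ℂ
  | 0 => hz k
  | j + 1 => dslope (dh k j) 1

/-- the right half-plane -/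
def HP : Set ℂ := {s : ℂ | 0 < s.re}

theorem HP_open : IsOpen HP := isOpen_lt continuous_const Complex.continuous_re

theorem HP_one : HP ∈ 𝓝 (1 : ℂ) := HP_open.mem_nhds (by simp [HP])

theorem dh_diff (k j : ℕ) : DifferentiableOn ℂ (dh k j) HP := by
  induction j with
  | zero =>
    intro s hs
    have hs0 : s ≠ 0 := by
      rintro rfl
      simp [HP] at hs
    have h1 : DifferentiableAt ℂ riemannZeta₁ s := differentiable_riemannZeta₁ s
    exact ((h1.pow k).div differentiableAt_id hs0).differentiableWithinAt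
  | succ j ih =>
    rw [dh]
    exact (Complex.differentiableOn_dslope HP_one).2 ih

theorem dh_step (k j : ℕ) (s : ℂ) : dh k j s = dh k j 1 + (s - 1) * dh k (j + 1) s := by
  have h := sub_smul_dslope (dh k j) 1 s
  rw [smul_eq_mul] at h
  rw [dh, h]
  ring

theorem dh_sum (k m : ℕ) (s : ℂ) :
    hz k s = ∑ j ∈ Finset.range m, dh k j 1 * (s - 1) ^ j + (s - 1) ^ m * dh k m s := by
  induction m with
  | zero => simp [dh]
  | succ m ih =>
    rw [ih, Finset.sum_range_succ, dh_step k m s]
    ring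

/-- the regular part of `ζ(s)^k / s` at `1` -/
noncomputable def EE (k : ℕ) (s : ℂ) : ℂ := dh k k s

/-- the coefficients of the principal part -/
noncomputable def cc (k p : ℕ) : ℂ := dh k (k - 1 - p) 1

/-- the principal part -/
noncomputable def PP (k : ℕ) (s : ℂ) : ℂ := ∑ p ∈ Finset.range k, cc k p / (s - 1) ^ (p + 1)

theorem decomp (k : ℕ) {s : ℂ} (h1 : s ≠ 1) : riemannZeta s ^ k / s = PP k s + EE k s := by
  have hs1 : s - 1 ≠ 0 := sub_ne_zero.2 h1
  have h2 : riemannZeta s ^ k / s = hz k s / (s - 1) ^ k := by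
    unfold hz
    rw [riemannZeta_eq_inv_sub_mul h1, mul_pow, inv_pow]
    field_simp
  rw [h2, dh_sum k k s, add_div]
  congr 1
  · rw [PP, Finset.sum_div, ← Finset.sum_range_reflect]
    refine Finset.sum_congr rfl fun p hp => ?_
    rw [Finset.mem_range] at hp
    unfold cc
    have e : (s - 1) ^ k = (s - 1) ^ (k - 1 - p) * (s - 1) ^ (p + 1) := by
      rw [← pow_add]
      congr 1
      omega
    rw [e]
    field_simp
  · unfold EE
    field_simp

/-- the main term, as a function of `v = log x` -/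
noncomputable def RR (k : ℕ) (v : ℝ) : ℂ :=
  ∑ p ∈ Finset.range k, cc k p * ((v : ℂ) ^ p / (p.factorial : ℂ)) * cexp v

theorem circle_term (v : ℝ) (p : ℕ) :
    (∮ s in C(1, 1 / 2), (1 / (s - 1) ^ (p + 1)) * cexp (s * v)) =
      2 * Real.pi * I * ((v : ℂ) ^ p / (p.factorial : ℂ) * cexp v) := by
  have hd : Differentiable ℂ (fun s : ℂ => cexp (s * v)) := by fun_prop
  have h := (hd.diffContOnCl (s := Metric.ball (1 : ℂ) (1 / 2))).circleIntegral_one_div_sub_center_pow_smul
    (by norm_num) p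
  simp only [smul_eq_mul] at h
  rw [h]
  have h2 : iteratedDeriv p (fun s : ℂ => cexp (s * v)) = fun s => (v : ℂ) ^ p * cexp (s * v) := by
    induction p with
    | zero => simp
    | succ p ih =>
      have h3 := (hd.diffContOnCl (s := Metric.ball (1 : ℂ) (1 / 2))).circleIntegral_one_div_sub_center_pow_smul
        (by norm_num) p
      simp only [smul_eq_mul] at h3
      rw [iteratedDeriv_succ, ih h3]
      funext s
      have h4 : HasDerivAt (fun s : ℂ => (v : ℂ) ^ p * cexp (s * v)) ((v : ℂ) ^ p * (cexp (s * v) * (1 * v))) s :=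
        (((hasDerivAt_id s).mul_const (v : ℂ)).cexp).const_mul _
      rw [h4.deriv]
      ring
  rw [h2]
  simp only [one_mul]
  ring

/-- **the residue** -/
theorem residue_eq (k : ℕ) (v : ℝ) :
    (2 * Real.pi * I)⁻¹ * (∮ s in C(1, 1 / 2), riemannZeta s ^ k * cexp (s * v) / s) = RR k v := by
  have hpi : (2 * Real.pi * I : ℂ) ≠ 0 := by
    simp [Real.pi_ne_zero]
  have h0 : ∀ s ∈ Metric.sphere (1 : ℂ) (1 / 2), riemannZeta s ^ k * cexp (s * v) / s =
      (∑ p ∈ Finset.range k, cc k p * ((1 / (s - 1) ^ (p + 1)) * cexp (s * v))) + EE k s * cexp (s * v) := by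
    intro s hs
    have hs1 : s ≠ 1 := by
      rintro rfl
      simp at hs
    have h1 : riemannZeta s ^ k * cexp (s * v) / s = (riemannZeta s ^ k / s) * cexp (s * v) := by ring
    rw [h1, decomp k hs1, add_mul, PP, Finset.sum_mul]
    congr 1
    refine Finset.sum_congr rfl fun p _ => ?_
    ring
  have hci : ∀ p : ℕ, CircleIntegrable (fun s : ℂ => cc k p * ((1 / (s - 1) ^ (p + 1)) * cexp (s * v))) 1 (1 / 2) := by
    intro p
    refine ContinuousOn.circleIntegrable (by norm_num) ?_
    refine ContinuousOn.mul continuousOn_const (ContinuousOn.mul (ContinuousOn.div continuousOn_const ?_ ?_) ?_)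
    · fun_prop
    · intro s hs
      apply pow_ne_zero
      intro h
      rw [sub_eq_zero] at h
      rw [h] at hs
      simp at hs
    · fun_prop
  have hball : Metric.closedBall (1 : ℂ) (1 / 2) ⊆ HP := by
    intro s hs
    rw [Metric.mem_closedBall, dist_eq_norm] at hs
    have h1 := (abs_re_le_norm (s - 1)).trans hs
    rw [sub_re, one_re] at h1
    have h2 := (abs_le.1 h1).1
    show 0 < s.re
    linarith
  have hE : CircleIntegrable (fun s : ℂ => EE k s * cexp (s * v)) 1 (1 / 2) := by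
    refine ContinuousOn.circleIntegrable (by norm_num) ?_
    refine ContinuousOn.mul ?_ (by fun_prop)
    exact ((dh_diff k k).continuousOn.mono hball).mono Metric.sphere_subset_closedBall
  have hE0 : (∮ s in C(1, 1 / 2), EE k s * cexp (s * v)) = 0 := by
    refine Complex.circleIntegral_eq_zero_of_differentiable_on_off_countable (by norm_num)
      Set.countable_empty ?_ ?_
    · exact ContinuousOn.mul ((dh_diff k k).continuousOn.mono hball) (by fun_prop)
    · intro s hs
      have hs' : s ∈ HP := hball (Metric.ball_subset_closedBall hs.1)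
      have h1 : DifferentiableAt ℂ (dh k k) s := (dh_diff k k).differentiableAt (HP_open.mem_nhds hs')
      exact h1.mul (by fun_prop)
  rw [circleIntegral.integral_congr (by norm_num) h0]
  rw [circleIntegral.integral_add ?_ hE, hE0, add_zero, circleIntegral.integral_fun_sum]
  · simp_rw [circleIntegral.integral_const_mul, circle_term]
    unfold RR
    rw [Finset.mul_sum]
    refine Finset.sum_congr rfl fun p _ => ?_
    field_simp
  · intro p _
    exact hci p
  · exact CircleIntegrable.fun_sum _ fun p _ => hci p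

/-! growth -/

theorem poly_gauss (n : ℕ) {δ : ℝ} (hδ : 0 < δ) (t : ℝ) :
    (3 + |t|) ^ n * Real.exp (-(δ * t ^ 2)) ≤ n.factorial * Real.exp (3 + 1 / (4 * δ)) := by
  have h1 : (3 + |t|) ^ n ≤ n.factorial * Real.exp (3 + |t|) := by
    have := Real.pow_div_factorial_le_exp (3 + |t|) (by positivity) n
    rw [div_le_iff₀ (by positivity)] at this
    linarith
  have h2 : 3 + |t| + -(δ * t ^ 2) ≤ 3 + 1 / (4 * δ) := by
    have h3 : 0 ≤ δ * (|t| - 1 / (2 * δ)) ^ 2 := by positivity
    have h4 : δ * (|t| - 1 / (2 * δ)) ^ 2 = δ * t ^ 2 - |t| + 1 / (4 * δ) := by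
      rw [sub_sq, sq_abs]
      field_simp
      ring
    linarith
  calc (3 + |t|) ^ n * Real.exp (-(δ * t ^ 2)) ≤ (n.factorial * Real.exp (3 + |t|)) * Real.exp (-(δ * t ^ 2)) := by
        gcongr
    _ = n.factorial * Real.exp (3 + |t| + -(δ * t ^ 2)) := by rw [mul_assoc, ← Real.exp_add]
    _ ≤ _ := by gcongr

theorem norm_le_strip {s : ℂ} (h1 : 1 / 2 ≤ s.re) (h2 : s.re ≤ 2) : ‖s‖ ≤ 2 + |s.im| := by
  refine (Complex.norm_le_abs_re_add_abs_im s).trans ?_
  rw [abs_of_nonneg (by linarith)]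
  linarith

/-- the regular part grows at most like a power in the strip -/
theorem EE_growth (k : ℕ) : ∃ C : ℝ, 0 ≤ C ∧ ∀ s : ℂ, 1 / 2 ≤ s.re → s.re ≤ 2 → 1 ≤ |s.im| →
    ‖EE k s‖ ≤ C * (3 + |s.im|) ^ (2 * k) := by
  refine ⟨3 ^ k + ∑ p ∈ Finset.range k, ‖cc k p‖, by positivity, fun s h1 h2 h3 => ?_⟩
  have hs1 : s ≠ 1 := by
    rintro rfl
    simp at h3
    linarith
  have n1 : 1 ≤ ‖s‖ := h3.trans (Complex.abs_im_le_norm s)
  have n2 : 1 ≤ ‖s - 1‖ := by
    have := Complex.abs_im_le_norm (s - 1)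
    simp only [sub_im, one_im, sub_zero] at this
    exact h3.trans this
  have e1 : EE k s = riemannZeta s ^ k / s - PP k s := by rw [decomp k hs1]; ring
  have e2 : ‖riemannZeta s ^ k / s‖ ≤ 3 ^ k * (3 + |s.im|) ^ (2 * k) := by
    rw [norm_div, norm_pow, riemannZeta_eq_inv_sub_mul hs1, norm_mul, norm_inv]
    have h4 : ‖s - 1‖⁻¹ * ‖riemannZeta₁ s‖ ≤ 3 * (3 + |s.im|) ^ 2 := by
      calc ‖s - 1‖⁻¹ * ‖riemannZeta₁ s‖ ≤ 1 * (3 * (‖s‖ + 1) ^ 2) := by
            refine mul_le_mul (inv_le_one_of_one_le₀ n2) (Pool.Agent.H437R2.z1_norm_le h1) (norm_nonneg _)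
              zero_le_one
        _ ≤ 3 * (3 + |s.im|) ^ 2 := by
            rw [one_mul]
            have := norm_le_strip h1 h2
            have h5 : ‖s‖ + 1 ≤ 3 + |s.im| := by linarith
            gcongr
    calc (‖s - 1‖⁻¹ * ‖riemannZeta₁ s‖) ^ k / ‖s‖ ≤ (3 * (3 + |s.im|) ^ 2) ^ k / 1 := by
          gcongr
      _ = _ := by rw [div_one, mul_pow, ← pow_mul]
  have e3 : ‖PP k s‖ ≤ ∑ p ∈ Finset.range k, ‖cc k p‖ := by
    unfold PP
    refine (norm_sum_le _ _).trans (Finset.sum_le_sum fun p _ => ?_)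
    rw [norm_div, norm_pow]
    exact div_le_self (norm_nonneg _) (one_le_pow₀ n2)
  have e4 : (1 : ℝ) ≤ (3 + |s.im|) ^ (2 * k) := one_le_pow₀ (by have := abs_nonneg s.im; linarith)
  rw [e1]
  refine (norm_sub_le _ _).trans ?_
  rw [add_mul]
  refine add_le_add e2 (e3.trans ?_)
  exact le_mul_of_one_le_right (Finset.sum_nonneg fun _ _ => norm_nonneg _) e4

end Pool.Agent.J6H39.KV
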