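import Pool.Agent.J6H39.KV.B

/-! Project KV: the Laplace transforms of the two halves of the remainder. -/

set_option autoImplicit false

open MeasureTheory Set Filter Topology Complex
open scoped ArithmeticFunction.zeta

namespace Pool.Agent.J6H39.KV

/-- the `k`-fold divisor function -/
noncomputable def dv (k n : ℕ) : ℕ := ((ArithmeticFunction.zeta : ArithmeticFunction ℕ) ^ k) n

/-- its summatory function -/
noncomputable def DD (k : ℕ) (x : ℝ) : ℂ := ∑ n ∈ Finset.Icc 1 ⌊x⌋₊, (dv k n : ℂ)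

/-- the Dirichlet series -/
theorem dv_series (k : ℕ) {s : ℂ} (hs : 1 < s.re) :
    LSeriesSummable (fun n => (dv k n : ℂ)) s ∧ LSeries (fun n => (dv k n : ℂ)) s = riemannZeta s ^ k := by
  have key : LSeriesSummable (fun n => ((((ArithmeticFunction.zeta : ArithmeticFunction ℕ) ^ k :
      ArithmeticFunction ℕ) : ArithmeticFunction ℂ)) n) s ∧
      LSeries (fun n => ((((ArithmeticFunction.zeta : ArithmeticFunction ℕ) ^ k :
      ArithmeticFunction ℕ) : ArithmeticFunction ℂ)) n) s = riemannZeta s ^ k := by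
    induction k with
    | zero =>
      rw [pow_zero, pow_zero, ArithmeticFunction.natCoe_one, ArithmeticFunction.one_eq_delta]
      have h := LSeries_delta
      constructor
      · refine ⟨_, hasSum_single 1 fun n hn => ?_⟩
        rcases eq_or_ne n 0 with rfl | h0
        · simp
        · rw [LSeries.term_of_ne_zero h0]
          simp [LSeries.delta, hn]
      · rw [h]; rfl
    | succ k ih =>
      rw [pow_succ, pow_succ, ArithmeticFunction.natCoe_mul]
      have hz : LSeriesSummable (fun n => ((ArithmeticFunction.zeta : ArithmeticFunction ℕ) :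
          ArithmeticFunction ℂ) n) s := ArithmeticFunction.LSeriesSummable_zeta_iff.2 hs
      refine ⟨ArithmeticFunction.LSeriesSummable_mul ih.1 hz, ?_⟩
      rw [ArithmeticFunction.LSeries_mul' ih.1 hz, ih.2]
      congr 1
      exact ArithmeticFunction.LSeries_zeta_eq_riemannZeta hs
  simpa [dv] using key

theorem DD_bound (k : ℕ) : ∃ C : ℝ, 0 ≤ C ∧ ∀ x : ℝ, 0 ≤ x → ‖DD k x‖ ≤ C * x ^ (3 / 2 : ℝ) := by
  have hs : (1 : ℝ) < ((3 / 2 : ℝ) : ℂ).re := by norm_num
  have h := (dv_series k hs).1.norm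
  refine ⟨∑' n, ‖LSeries.term (fun n => (dv k n : ℂ)) ((3 / 2 : ℝ) : ℂ) n‖,
    tsum_nonneg fun _ => norm_nonneg _, fun x hx => ?_⟩
  have h1 : ‖DD k x‖ ≤ ∑ n ∈ Finset.Icc 1 ⌊x⌋₊,
      ‖LSeries.term (fun n => (dv k n : ℂ)) ((3 / 2 : ℝ) : ℂ) n‖ * x ^ (3 / 2 : ℝ) := by
    refine (norm_sum_le _ _).trans (Finset.sum_le_sum fun n hn => ?_)
    rw [Finset.mem_Icc] at hn
    have hn0 : n ≠ 0 := by omega
    rw [LSeries.term_of_ne_zero hn0, norm_div, Complex.norm_natCast_cpow_of_pos (by omega), ofReal_re]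
    have h2 : (n : ℝ) ≤ x := (Nat.le_floor_iff hx).1 hn.2
    have h3 : (0 : ℝ) < (n : ℝ) ^ (3 / 2 : ℝ) := by
      apply Real.rpow_pos_of_pos
      exact_mod_cast hn.1
    have h4 : (n : ℝ) ^ (3 / 2 : ℝ) ≤ x ^ (3 / 2 : ℝ) := by
      apply Real.rpow_le_rpow (by positivity) h2 (by norm_num)
    rw [div_mul_eq_mul_div, le_div_iff₀ h3]
    gcongr
  refine h1.trans ?_
  rw [← Finset.sum_mul]
  gcongr
  exact h.sum_le_tsum _ fun _ _ => norm_nonneg _

theorem DD_lt_one (k : ℕ) {x : ℝ} (h : x < 1) : DD k x = 0 := by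
  unfold DD
  rw [Nat.floor_eq_zero.2 h]
  simp

theorem DD_meas (k : ℕ) : Measurable (DD k) := by
  unfold DD
  exact (measurable_from_nat (f := fun m : ℕ => ∑ n ∈ Finset.Icc 1 m, (dv k n : ℂ))).comp Nat.measurable_floor

/-- the Laplace transform of the summatory function -/
theorem DD_laplace (k : ℕ) (t : ℝ) :
    ∫ v in Ioi (0 : ℝ), DD k (Real.exp v) * cexp (-((2 + t * I) * v)) =
      riemannZeta (2 + t * I) ^ k / (2 + t * I) := by
  have hre : (2 + t * I : ℂ).re = 2 := by simp
  have hs : (1 : ℝ) < (2 + t * I : ℂ).re := by rw [hre]; norm_num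
  have hs0 : (2 + t * I : ℂ) ≠ 0 := by
    intro h
    rw [h] at hre
    simp at hre
  obtain ⟨C, hC, hb⟩ := DD_bound k
  have hO : (fun n : ℕ ↦ ∑ j ∈ Finset.Icc 1 n, (dv k j : ℂ)) =O[atTop] fun n ↦ (n : ℝ) ^ (3 / 2 : ℝ) := by
    refine Asymptotics.IsBigO.of_bound C (Eventually.of_forall fun n => ?_)
    have := hb n (by positivity)
    rw [DD, Nat.floor_natCast] at this
    refine this.trans (le_of_eq ?_)
    rw [Real.norm_of_nonneg (by positivity)]
  have h1 := LSeries_eq_mul_integral (fun n => (dv k n : ℂ)) (r := 3 / 2) (by norm_num)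
    (s := 2 + t * I) (by rw [hre]; norm_num) (dv_series k hs).1 hO
  rw [(dv_series k hs).2] at h1
  rw [h1, mul_div_cancel_left₀ _ hs0]
  have himg : Real.exp '' Ioi 0 = Ioi 1 := by
    ext x
    constructor
    · rintro ⟨v, hv, rfl⟩
      exact Real.one_lt_exp_iff.2 hv
    · intro hx
      exact ⟨Real.log x, Real.log_pos hx, Real.exp_log (zero_lt_one.trans hx)⟩
  rw [← himg, integral_image_eq_integral_abs_deriv_smul measurableSet_Ioi
    (fun x _ => (Real.hasDerivAt_exp x).hasDerivWithinAt) Real.exp_injective.injOn]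
  refine setIntegral_congr_fun measurableSet_Ioi fun v _ => ?_
  rw [abs_of_pos (Real.exp_pos v), Complex.real_smul, DD]
  have h2 : ((Real.exp v : ℝ) : ℂ) ^ (-((2 + t * I : ℂ) + 1)) = cexp (-((2 + t * I + 1) * v)) := by
    rw [Complex.cpow_def_of_ne_zero (by exact_mod_cast (Real.exp_pos v).ne'), ← Complex.ofReal_log (Real.exp_pos v).le,
      Real.log_exp]
    congr 1
    ring
  rw [h2, mul_left_comm, Complex.ofReal_exp, ← Complex.exp_add]
  congr 2
  ring

/-- the Laplace transform of a power -/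
theorem pow_laplace (p : ℕ) {r : ℂ} (hr : 0 < r.re) :
    IntegrableOn (fun v : ℝ => (v : ℂ) ^ p * cexp (-(r * v))) (Ioi 0) ∧
      ∫ v in Ioi (0 : ℝ), (v : ℂ) ^ p * cexp (-(r * v)) = (p.factorial : ℂ) / r ^ (p + 1) := by
  have hr0 : r ≠ 0 := by
    rintro rfl
    simp at hr
  have hint : ∀ p : ℕ, IntegrableOn (fun v : ℝ => (v : ℂ) ^ p * cexp (-(r * v))) (Ioi 0) := by
    intro p
    have h1 := integrableOn_rpow_mul_exp_neg_mul_rpow (p := 1) (s := p) (b := r.re)
      (by have : (0 : ℝ) ≤ p := by positivity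
          linarith) one_pos hr
    refine h1.mono' (Continuous.aestronglyMeasurable (by fun_prop)) ?_
    refine (ae_restrict_iff' measurableSet_Ioi).2 (Eventually.of_forall fun v hv => ?_)
    have hv0 : (0 : ℝ) < v := hv
    rw [norm_mul, norm_pow, Complex.norm_real, Real.norm_of_nonneg hv0.le, Complex.norm_exp, Real.rpow_one,
      Real.rpow_natCast]
    apply le_of_eq
    congr 2
    simp
  refine ⟨hint p, ?_⟩
  induction p with
  | zero =>
    have := integral_exp_mul_complex_Ioi (a := -r) (by simpa using hr) 0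
    simp only [pow_zero, one_mul, Nat.factorial_zero, Nat.cast_one, zero_add, pow_one]
    simp only [ofReal_zero, mul_zero, Complex.exp_zero] at this
    rw [neg_div_neg_eq] at this
    rw [← this]
    refine setIntegral_congr_fun measurableSet_Ioi fun v _ => ?_
    simp only [neg_mul]
  | succ p ih =>
    have hd : ∀ v ∈ Ici (0 : ℝ), HasDerivAt (fun v : ℝ => -((v : ℂ) ^ (p + 1) * cexp (-(r * v)) / r))
        ((v : ℂ) ^ (p + 1) * cexp (-(r * v)) - ((p + 1 : ℕ) : ℂ) / r * ((v : ℂ) ^ p * cexp (-(r * v)))) v := by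
      intro v _
      have h1 : HasDerivAt (fun z : ℂ => -(z ^ (p + 1) * cexp (-(r * z)) / r))
          (-((((p + 1 : ℕ) : ℂ) * (v : ℂ) ^ p * cexp (-(r * v)) + (v : ℂ) ^ (p + 1) * (cexp (-(r * v)) * (-(r * 1)))) / r))
          (v : ℂ) :=
        (((hasDerivAt_pow (p + 1) (v : ℂ)).mul (((hasDerivAt_id (v : ℂ)).const_mul r).neg.cexp)).div_const r).neg
      have h2 := h1.comp_ofReal
      convert h2 using 1
      field_simp
      ring
    have hlim : Tendsto (fun v : ℝ => -((v : ℂ) ^ (p + 1) * cexp (-(r * v)) / r)) atTop (𝓝 0) := by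
      rw [← neg_zero]
      refine Tendsto.neg ?_
      rw [← zero_div r]
      refine Tendsto.div_const ?_ r
      rw [tendsto_zero_iff_norm_tendsto_zero]
      have h3 := tendsto_rpow_mul_exp_neg_mul_atTop_nhds_zero ((p + 1 : ℕ) : ℝ) r.re hr
      refine h3.congr' ?_
      filter_upwards [eventually_gt_atTop 0] with v hv
      rw [norm_mul, norm_pow, Complex.norm_real, Real.norm_of_nonneg hv.le, Complex.norm_exp, Real.rpow_natCast]
      congr 2
      simp
    have h4 := integral_Ioi_of_hasDerivAt_of_tendsto' hd ((hint (p + 1)).sub ((hint p).const_mul _)) hlim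
    rw [integral_sub (hint (p + 1)) ((hint p).const_mul _), integral_const_mul, ih] at h4
    simp only [ofReal_zero, ne_eq, Nat.add_eq_zero_iff, one_ne_zero, and_false, not_false_eq_true, zero_pow,
      zero_mul, zero_div, neg_zero, sub_zero] at h4
    rw [sub_eq_zero.1 h4, Nat.factorial_succ]
    push_cast
    field_simp
    ring

/-- the remainder, as a function of `v = log x` -/
noncomputable def Dl (k : ℕ) (v : ℝ) : ℂ := DD k (Real.exp v) - RR k v

/-- its part on `v ≥ 0` -/
noncomputable def D1 (k : ℕ) (v : ℝ) : ℂ := if 0 ≤ v then Dl k v else 0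

/-- its part on `v < 0` -/
noncomputable def D2 (k : ℕ) (v : ℝ) : ℂ := if 0 ≤ v then 0 else Dl k v

theorem D1_add_D2 (k : ℕ) (v : ℝ) : D1 k v + D2 k v = Dl k v := by
  unfold D1 D2
  split_ifs <;> simp

theorem RR_cont (k : ℕ) : Continuous (RR k) := by
  unfold RR
  fun_prop

theorem Dl_meas (k : ℕ) : Measurable (Dl k) := by
  unfold Dl
  exact ((DD_meas k).comp Real.measurable_exp).sub (RR_cont k).measurable

theorem D1_meas (k : ℕ) : Measurable (D1 k) :=
  Measurable.ite measurableSet_Ici (Dl_meas k) measurable_const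

theorem D2_meas (k : ℕ) : Measurable (D2 k) :=
  Measurable.ite measurableSet_Ici measurable_const (Dl_meas k)

/-- the main term on the left -/
theorem RR_right (k : ℕ) (t : ℝ) :
    IntegrableOn (fun v : ℝ => RR k v * cexp (-((2 + t * I) * v))) (Ioi 0) ∧
      ∫ v in Ioi (0 : ℝ), RR k v * cexp (-((2 + t * I) * v)) = PP k (2 + t * I) := by
  have hre : 0 < (2 + t * I - 1 : ℂ).re := by norm_num
  have hp := fun p => pow_laplace p hre
  have h1 : ∀ v : ℝ, RR k v * cexp (-((2 + t * I) * v)) =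
      ∑ p ∈ Finset.range k, (cc k p / (p.factorial : ℂ)) * ((v : ℂ) ^ p * cexp (-((2 + t * I - 1) * v))) := by
    intro v
    unfold RR
    rw [Finset.sum_mul]
    refine Finset.sum_congr rfl fun p _ => ?_
    have : cexp (-((2 + t * I - 1) * v)) = cexp v * cexp (-((2 + t * I) * v)) := by
      rw [← Complex.exp_add]
      congr 1
      ring
    rw [this]
    ring
  simp_rw [h1]
  constructor
  · exact integrable_finsetSum _ fun p _ => (hp p).1.const_mul _
  · rw [integral_finsetSum _ fun p _ => (hp p).1.const_mul _]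
    simp_rw [integral_const_mul]
    unfold PP
    refine Finset.sum_congr rfl fun p _ => ?_
    rw [(hp p).2]
    have : (p.factorial : ℂ) ≠ 0 := by exact_mod_cast p.factorial_ne_zero
    field_simp

theorem DD_int (k : ℕ) (t : ℝ) :
    IntegrableOn (fun v : ℝ => DD k (Real.exp v) * cexp (-((2 + t * I) * v))) (Ioi 0) := by
  obtain ⟨C, hC, hb⟩ := DD_bound k
  have h1 : IntegrableOn (fun v : ℝ => C * Real.exp (-(1 / 2) * v)) (Ioi 0) :=
    (integrableOn_exp_mul_Ioi (by norm_num) 0).const_mul _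
  refine h1.mono' ?_ ?_
  · exact (((DD_meas k).comp Real.measurable_exp).mul (by fun_prop)).aestronglyMeasurable
  · refine (ae_restrict_iff' measurableSet_Ioi).2 (Eventually.of_forall fun v _ => ?_)
    rw [norm_mul, Complex.norm_exp]
    have h2 := hb (Real.exp v) (Real.exp_pos v).le
    have h3 : (-((2 + t * I : ℂ) * v)).re = -(2 * v) := by simp
    rw [h3]
    calc ‖DD k (Real.exp v)‖ * Real.exp (-(2 * v)) ≤ (C * Real.exp v ^ (3 / 2 : ℝ)) * Real.exp (-(2 * v)) := by
          gcongr
      _ = C * Real.exp (-(1 / 2) * v) := by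
          rw [← Real.exp_mul, mul_assoc, ← Real.exp_add]
          congr 2
          ring

theorem D1_laplace (k : ℕ) (t : ℝ) :
    Integrable (fun v : ℝ => D1 k v * cexp (-((2 + t * I) * v))) ∧
      ∫ v : ℝ, D1 k v * cexp (-((2 + t * I) * v)) = EE k (2 + t * I) := by
  have h0 : (fun v : ℝ => D1 k v * cexp (-((2 + t * I) * v))) =
      (Ici (0 : ℝ)).indicator (fun v : ℝ => DD k (Real.exp v) * cexp (-((2 + t * I) * v)) -
        RR k v * cexp (-((2 + t * I) * v))) := by
    funext v
    by_cases hv : 0 ≤ v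
    · rw [indicator_of_mem (by exact hv), D1, if_pos hv, Dl]
      ring
    · rw [indicator_of_notMem (by exact hv), D1, if_neg hv, zero_mul]
  have h1 := (DD_int k t).sub (RR_right k t).1
  rw [h0, integrable_indicator_iff measurableSet_Ici, integral_indicator measurableSet_Ici,
    integrableOn_Ici_iff_integrableOn_Ioi, integral_Ici_eq_integral_Ioi]
  refine ⟨h1, ?_⟩
  rw [integral_sub (DD_int k t) (RR_right k t).1, DD_laplace, (RR_right k t).2, decomp]
  · ring
  · intro h
    have := congrArg Complex.re h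
    simp at this

theorem D2_laplace (k : ℕ) (t : ℝ) :
    Integrable (fun v : ℝ => D2 k v * cexp (-((1 / 2 + t * I) * v))) ∧
      ∫ v : ℝ, D2 k v * cexp (-((1 / 2 + t * I) * v)) = PP k (1 / 2 + t * I) := by
  have hre : 0 < (1 / 2 - t * I : ℂ).re := by norm_num
  have hp := fun p => pow_laplace p hre
  have h0 : (fun v : ℝ => D2 k v * cexp (-((1 / 2 + t * I) * v))) =
      fun v : ℝ => (Ioi (0 : ℝ)).indicator (fun v : ℝ =>
        -∑ p ∈ Finset.range k, (cc k p / (p.factorial : ℂ) * (-1) ^ p) *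
          ((v : ℂ) ^ p * cexp (-((1 / 2 - t * I) * v)))) (-v) := by
    funext v
    by_cases hv : v < 0
    · rw [indicator_of_mem (by simpa using hv), D2, if_neg (not_le.2 hv), Dl, DD_lt_one k (by simpa using hv),
        zero_sub, neg_mul, RR, Finset.sum_mul]
      congr 1
      refine Finset.sum_congr rfl fun p _ => ?_
      have : cexp (-((1 / 2 - t * I) * ((-v : ℝ) : ℂ))) = cexp v * cexp (-((1 / 2 + t * I) * v)) := by
        rw [← Complex.exp_add]
        congr 1
        push_cast
        ring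
      rw [this]
      have h3 : ((-1 : ℂ)) ^ p * ((-v : ℝ) : ℂ) ^ p = (v : ℂ) ^ p := by
        rw [← mul_pow]
        push_cast
        ring
      linear_combination (-(cc k p / (p.factorial : ℂ) * (cexp v * cexp (-((1 / 2 + t * I) * v))))) * h3
    · rw [indicator_of_notMem (by simpa using hv), D2, if_pos (not_lt.1 hv), zero_mul]
  have hI : Integrable ((Ioi (0 : ℝ)).indicator (fun v : ℝ =>
        -∑ p ∈ Finset.range k, (cc k p / (p.factorial : ℂ) * (-1) ^ p) *
          ((v : ℂ) ^ p * cexp (-((1 / 2 - t * I) * v))))) := by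
    rw [integrable_indicator_iff measurableSet_Ioi]
    exact (integrable_finsetSum _ fun p _ => (hp p).1.const_mul _).neg
  rw [h0]
  refine ⟨hI.comp_neg, ?_⟩
  rw [integral_neg_eq_self (f := (Ioi (0 : ℝ)).indicator (fun v : ℝ =>
        -∑ p ∈ Finset.range k, (cc k p / (p.factorial : ℂ) * (-1) ^ p) *
          ((v : ℂ) ^ p * cexp (-((1 / 2 - t * I) * v))))) (μ := volume), integral_indicator measurableSet_Ioi,
    integral_neg, integral_finsetSum _ fun p _ => (hp p).1.const_mul _]
  simp_rw [integral_const_mul]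
  unfold PP
  rw [← Finset.sum_neg_distrib]
  refine Finset.sum_congr rfl fun p _ => ?_
  rw [(hp p).2]
  have hf : (p.factorial : ℂ) ≠ 0 := by exact_mod_cast p.factorial_ne_zero
  have hs : (1 / 2 + t * I - 1 : ℂ) = -(1 / 2 - t * I) := by ring
  have hr0 : (1 / 2 - t * I : ℂ) ≠ 0 := by
    intro h
    rw [h] at hre
    simp at hre
  have h4 : (-(1 / 2 - t * I : ℂ)) ^ (p + 1) = -((-1) ^ p * (1 / 2 - t * I) ^ (p + 1)) := by
    rw [neg_pow (1 / 2 - t * I : ℂ) (p + 1), pow_succ (-1 : ℂ) p]
    ring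
  have h1 : ((-1 : ℂ) ^ p) * (-1) ^ p = 1 := by
    rw [← mul_pow]
    simp
  have h2 : ((-1 : ℂ) ^ p) ≠ 0 := by
    intro h
    rw [h] at h1
    simp at h1
  have h5 : (1 / 2 - t * I : ℂ) ^ (p + 1) ≠ 0 := pow_ne_zero _ hr0
  rw [hs, h4]
  generalize (1 / 2 - t * I : ℂ) ^ (p + 1) = R at h5 ⊢
  generalize ((-1 : ℂ) ^ p) = e at h1 h2 ⊢
  field_simp
  linear_combination (-cc k p) * h1

end Pool.Agent.J6H39.KV
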